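import Pool.Agent.Q28.HJ.Main

/-!
# Hodge realisation of motives of hypersurfaces: definitions
-/

open CategoryTheory MonoidalCategory

universe v u w v' u'

namespace Pool.Agent.Q296.FF

open Pool.Agent.Q28.HJ

/-- The category `𝓜` of motives over an algebraically closed field `k` whose morphisms are the
absolute Hodge correspondences (Deligne), the category `𝓗` of rational Hodge structures, the
realisation functor `H_σ` for one embedding `σ` of `k` in the complex numbers, and the smooth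
hypersurfaces over `k` with their primitive motives. -/
structure RealData (𝓜 : Type u) [Category.{v} 𝓜] (𝓗 : Type u') [Category.{v'} 𝓗] where
  /-- the realisation functor `H_σ` -/
  H : 𝓜 ⥤ 𝓗
  /-- the Hodge structure is pure of the given weight -/
  Pure : ℕ → 𝓗 → Prop
  /-- the Lefschetz motive -/
  L : 𝓜
  /-- the hypersurfaces `X` in projective spaces `ℙ^(n+1)` over `k`, `n ≥ 0` -/
  Hyp : Type w
  /-- the dimension `n` -/
  dim : Hyp → ℕ
  /-- the degree -/
  deg : Hyp → ℕ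
  /-- the hypersurface is smooth -/
  Smooth : Hyp → Prop
  /-- the *primitive motive* `M_X = (X, Δ - (1/d) ∑ h^j × h^(n-j))` of a smooth hypersurface `X` of
  dimension `n` and degree `d`; its cohomology is the primitive cohomology of `X`, of degree `n`, and
  the motive of `X` is `M_X ⊞ 𝟙 ⊞ L ⊞ ⋯ ⊞ L^n` -/
  prim : Hyp → 𝓜
  /-- the relation `Susp X W`: `X` is a smooth hypersurface with equation `f(x) = 0` of degree
  `d ≥ 2`, and `W` is its *suspension* with equation `f(x) + y_0^d + y_1^d = 0` -/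
  Susp : Hyp → Hyp → Prop

namespace RealData

variable {𝓜 : Type u} [Category.{v} 𝓜] {𝓗 : Type u'} [Category.{v'} 𝓗]
  (T : RealData.{v, u, w, v', u'} 𝓜 𝓗)

/-- Every morphism of Hodge structures `H_σ(M) ⟶ H_σ(N)` is the image of a morphism `M ⟶ N`. -/
def Full (M N : 𝓜) : Prop := ∀ φ : T.H.obj M ⟶ T.H.obj N, ∃ f : M ⟶ N, T.H.map f = φ

variable [MonoidalCategory 𝓜]

/-- Every Hodge class in the primitive cohomology of `W`, of degree `dim W = 2 i`, that is, every
morphism of Hodge structures from `H_σ(L^i)` to `H_σ(M_W)`, is absolute Hodge. -/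
def MiddleClasses (W : T.Hyp) : Prop := ∀ i, 2 * i = T.dim W → T.Full (pow T.L i) (T.prim W)

/-- `M` is a tensor product of primitive motives of smooth hypersurfaces (of any dimensions and
degrees), the sum of the dimensions being `N`. -/
inductive IsProd : ℕ → 𝓜 → Prop
  | one (X : T.Hyp) (hX : T.Smooth X) : IsProd (T.dim X) (T.prim X)
  | tensor {a b : ℕ} {M N : 𝓜} (hM : IsProd a M) (hN : IsProd b N) : IsProd (a + b) (M ⊗ N)

/-- The tannakian subcategory generated by the motives of all smooth hypersurfaces: the smallest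
class of objects which contains the `M_X`, the unit and `L`, and is closed under tensor products,
direct sums and direct summands (`split`: the identity of `M` is a sum of two morphisms which
factor through `A` and `A'`), and passage from `M ⊗ L` to `M`. It is closed under duals since the
dual of `M_X` is `M_X ⊗ L^(-dim X)`. -/
inductive Gen [Preadditive 𝓜] : 𝓜 → Prop
  | hyp (X : T.Hyp) (hX : T.Smooth X) : Gen (T.prim X)
  | unit : Gen (𝟙_ 𝓜)
  | lef : Gen T.L
  | tensor {M N : 𝓜} (hM : Gen M) (hN : Gen N) : Gen (M ⊗ N)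
  | split {M A A' : 𝓜} (i₁ : M ⟶ A) (r₁ : A ⟶ M) (i₂ : M ⟶ A') (r₂ : A' ⟶ M)
      (h : i₁ ≫ r₁ + i₂ ≫ r₂ = 𝟙 M) (hA : Gen A) (hA' : Gen A') : Gen M
  | untwist {M : 𝓜} (h : Gen (M ⊗ T.L)) : Gen M

variable [MonoidalCategory 𝓗] [BraidedCategory 𝓜]

/-- Known facts.
* `pure_prim` to `pure_hom`: weights of Hodge structures.
* `inv_L`: the Lefschetz motive is invertible.
* `poincare`: Poincare duality. For a smooth `X` of dimension `n` there are `c : L^n ⟶ M_X ⊗ M_X`
  (the class of the diagonal) and `e : M_X ⊗ M_X ⟶ L^n` (the intersection pairing) which make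
  `M_X ⊗ L^(-n)` the dual of `M_X`.
* `points`: the unit motive is a direct summand of the primitive motive of a set of two points.
* `join` (Shioda, Katsura): for smooth hypersurfaces `X : f(x) = 0` and `Y : g(y) = 0` of the same
  degree `d`, `M_X ⊗ M_Y ⊗ L` is a direct summand of `M_W`, `W : f(x) + g(y) = 0`.
* `susp`, `susp_prop`: the case where `Y` consists of `d ≥ 2` points, so that `M_Y` is a sum of
  `d - 1` copies of the unit motive.
* `cover`: for a smooth hypersurface `X : f(x) = 0`, in general coordinates, and `e ≥ 1` the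
  hypersurface `X' : f(x_0^e, x_1^e, …) = 0` is smooth and has a finite morphism to `X`. -/
structure Facts [Preadditive 𝓗] : Prop where
  pure_prim : ∀ X : T.Hyp, T.Smooth X → T.Pure (T.dim X) (T.H.obj (T.prim X))
  pure_L : T.Pure 2 (T.H.obj T.L)
  pure_unit : T.Pure 0 (𝟙_ 𝓗)
  pure_tensor : ∀ {a b : ℕ} {A B : 𝓗}, T.Pure a A → T.Pure b B → T.Pure (a + b) (A ⊗ B)
  pure_iso : ∀ {a : ℕ} {A B : 𝓗}, Nonempty (A ≅ B) → T.Pure a A → T.Pure a B
  pure_hom : ∀ {a b : ℕ} {A B : 𝓗}, T.Pure a A → T.Pure b B → a ≠ b → ∀ φ : A ⟶ B, φ = 0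
  inv_L : ∃ L' : 𝓜, Nonempty (T.L ⊗ L' ≅ 𝟙_ 𝓜)
  poincare : ∀ X : T.Hyp, T.Smooth X → ∃ (c : pow T.L (T.dim X) ⟶ T.prim X ⊗ T.prim X)
    (e : T.prim X ⊗ T.prim X ⟶ pow T.L (T.dim X)),
      (c ▷ T.prim X) ≫ (α_ _ _ _).hom ≫ (T.prim X ◁ e) = (β_ (pow T.L (T.dim X)) (T.prim X)).hom
  points : ∃ Y : T.Hyp, T.Smooth Y ∧ T.dim Y = 0 ∧ Nonempty (Retract (𝟙_ 𝓜) (T.prim Y))
  join : ∀ X Y : T.Hyp, T.Smooth X → T.Smooth Y → T.deg X = T.deg Y → ∃ W, T.Smooth W ∧
    T.deg W = T.deg X ∧ T.dim W = T.dim X + T.dim Y + 2 ∧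
      Nonempty (Retract ((T.prim X ⊗ T.prim Y) ⊗ T.L) (T.prim W))
  susp : ∀ X : T.Hyp, T.Smooth X → 2 ≤ T.deg X → ∃ W, T.Susp X W
  susp_prop : ∀ X W : T.Hyp, T.Susp X W → T.Smooth W ∧ T.deg W = T.deg X ∧
    T.dim W = T.dim X + 2 ∧ Nonempty (Retract (T.prim X ⊗ T.L) (T.prim W))
  cover : ∀ (X : T.Hyp) (e : ℕ), T.Smooth X → 0 < e → ∃ X', T.Smooth X' ∧
    T.deg X' = T.deg X * e ∧ T.dim X' = T.dim X ∧ Nonempty (Retract (T.prim X) (T.prim X'))
  deg_pos : ∀ X : T.Hyp, 0 < T.deg X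

end RealData

/-- The set `S` of pairs `(n, d)` contains, for all `N, D ≥ 1`, a pair `(n, d)` with `n ≥ N` even
and `d ≥ 1` divisible by `D`. -/
def EvenCofinal (S : Set (ℕ × ℕ)) : Prop :=
  ∀ N D : ℕ, 0 < D → ∃ p ∈ S, Even p.1 ∧ N ≤ p.1 ∧ D ∣ p.2 ∧ 0 < p.2

end Pool.Agent.Q296.FF
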