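import Pool.Agent.Q296.FF.Main

/-!
# Hodge realisation of motives of hypersurfaces: the main theorem
-/

open CategoryTheory MonoidalCategory Functor.LaxMonoidal Functor.OplaxMonoidal

universe v u w v' u'

namespace Pool.Agent.Q296.FF

open Pool.Agent.Q28.HJ

namespace RealData

variable {𝓜 : Type u} [Category.{v} 𝓜] {𝓗 : Type u'} [Category.{v'} 𝓗]
  {T : RealData.{v, u, w, v', u'} 𝓜 𝓗} [MonoidalCategory 𝓜] [MonoidalCategory 𝓗]
  [BraidedCategory 𝓜] [Preadditive 𝓗]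

/-- iterated suspensions -/
lemma susps (hT : T.Facts) {X W : T.Hyp} (hX : T.Smooth X)
    (h : Relation.ReflTransGen T.Susp X W) : T.Smooth W ∧ T.deg W = T.deg X ∧
      ∃ k, T.dim W = T.dim X + 2 * k ∧ Nonempty (Retract (T.prim X ⊗ pow T.L k) (T.prim W)) := by
  induction h with
  | refl => exact ⟨hX, rfl, 0, rfl, ⟨retIso (ρ_ _)⟩⟩
  | tail _ h2 ih =>
    obtain ⟨hs, hd, k, hk, ⟨R⟩⟩ := ih
    obtain ⟨hs', hd', hk', ⟨R'⟩⟩ := hT.susp_prop _ _ h2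
    refine ⟨hs', hd'.trans hd, k + 1, by omega, ⟨?_⟩⟩
    exact ((retIso (α_ _ _ _).symm).trans (retRight R T.L)).trans R'

/-- every smooth hypersurface of degree at least two has iterated suspensions -/
lemma exists_susps (hT : T.Facts) {X : T.Hyp} (hX : T.Smooth X) (hd : 2 ≤ T.deg X) (k : ℕ) :
    ∃ W, Relation.ReflTransGen T.Susp X W ∧ T.dim W = T.dim X + 2 * k := by
  induction k with
  | zero => exact ⟨X, .refl, rfl⟩
  | succ k ih =>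
    obtain ⟨W, h, hk⟩ := ih
    obtain ⟨hs, hd', -⟩ := susps hT hX h
    obtain ⟨W', h'⟩ := hT.susp W hs (hd' ▸ hd)
    have := (hT.susp_prop _ _ h').2.2.1
    exact ⟨W', h.tail h', by omega⟩

/-- products of hypersurfaces are dominated by hypersurfaces -/
lemma prod_retract (hT : T.Facts) {N : ℕ} {M : 𝓜} (h : T.IsProd N M) :
    ∃ D : ℕ, 0 < D ∧ ∀ E : ℕ, 0 < E → ∃ (W : T.Hyp) (s : ℕ), T.Smooth W ∧ T.deg W = D * E ∧
      T.dim W = N + 2 * s ∧ Nonempty (Retract (M ⊗ pow T.L s) (T.prim W)) := by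
  induction h with
  | one X hX =>
    refine ⟨T.deg X, hT.deg_pos X, fun E hE => ?_⟩
    obtain ⟨X', h1, h2, h3, ⟨R⟩⟩ := hT.cover X E hX hE
    exact ⟨X', 0, h1, h2, by omega, ⟨(retIso (ρ_ _)).trans R⟩⟩
  | @tensor a b M N _ _ ih₁ ih₂ =>
    obtain ⟨D₁, hD₁, H₁⟩ := ih₁
    obtain ⟨D₂, hD₂, H₂⟩ := ih₂
    refine ⟨D₁ * D₂, Nat.mul_pos hD₁ hD₂, fun E hE => ?_⟩
    obtain ⟨W₁, s, a1, a2, a3, ⟨R₁⟩⟩ := H₁ (D₂ * E) (Nat.mul_pos hD₂ hE)
    obtain ⟨W₂, t, b1, b2, b3, ⟨R₂⟩⟩ := H₂ (D₁ * E) (Nat.mul_pos hD₁ hE)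
    obtain ⟨W, c1, c2, c3, ⟨R⟩⟩ := hT.join W₁ W₂ a1 b1 (by rw [a2, b2]; ring)
    refine ⟨W, s + t + 1, c1, by rw [c2, a2]; ring, by omega, ⟨?_⟩⟩
    have e₁ : (M ⊗ N) ⊗ pow T.L (s + t + 1) ≅ ((M ⊗ N) ⊗ pow T.L (s + t)) ⊗ T.L :=
      (α_ _ _ _).symm
    have e₂ : (M ⊗ N) ⊗ pow T.L (s + t) ≅ (M ⊗ pow T.L s) ⊗ (N ⊗ pow T.L t) :=
      (tensorLeft (M ⊗ N)).mapIso (powAdd T.L s t) ≪≫ (shuffle M _ N _).symm
    have R₃ : Retract ((M ⊗ pow T.L s) ⊗ (N ⊗ pow T.L t)) (T.prim W₁ ⊗ T.prim W₂) :=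
      (retRight R₁ _).trans (retLeft R₂ _)
    exact ((retIso e₁).trans (retRight ((retIso e₂).trans R₃) T.L)).trans R

/-- twisted products are dominated by hypersurfaces of all large dimensions -/
lemma retract_large (hT : T.Facts) {N : ℕ} {M : 𝓜} (hM : T.IsProd N M) :
    ∃ s₀ : ℕ, ∀ s, s₀ ≤ s → ∃ W : T.Hyp, T.Smooth W ∧ T.dim W = N + 2 * s ∧
      Nonempty (Retract (M ⊗ pow T.L s) (T.prim W)) := by
  obtain ⟨D, hD, H⟩ := prod_retract hT hM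
  obtain ⟨W, s₀, h1, h2, h3, ⟨R⟩⟩ := H 2 two_pos
  refine ⟨s₀, fun s hs => ?_⟩
  obtain ⟨t, rfl⟩ := Nat.exists_eq_add_of_le hs
  obtain ⟨W', a1, a2⟩ := exists_susps hT h1 (by rw [h2]; omega) t
  obtain ⟨b1, -, k, b3, ⟨R'⟩⟩ := susps hT h1 a1
  obtain rfl : k = t := by omega
  refine ⟨W', b1, by omega, ⟨?_⟩⟩
  have e : M ⊗ pow T.L (s₀ + k) ≅ (M ⊗ pow T.L s₀) ⊗ pow T.L k :=
    (tensorLeft M).mapIso (powAdd T.L s₀ k) ≪≫ (α_ _ _ _).symm
  exact ((retIso e).trans (retRight R _)).trans R'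

lemma exists_inv (hT : T.Facts) (k : ℕ) : ∃ P' : 𝓜, Nonempty (pow T.L k ⊗ P' ≅ 𝟙_ 𝓜) := by
  obtain ⟨L', ⟨e⟩⟩ := hT.inv_L
  exact inv_pow e k

/-- `(M ⊗ L^k) ⊗ L^s = M ⊗ L^(k+s)` -/
def twistAdd (T : RealData.{v, u, w, v', u'} 𝓜 𝓗) (M : 𝓜) (k s : ℕ) :
    (M ⊗ pow T.L k) ⊗ pow T.L s ≅ M ⊗ pow T.L (k + s) :=
  α_ _ _ _ ≪≫ (tensorLeft M).mapIso (powAdd T.L k s).symm

variable [BraidedCategory 𝓗] [T.H.Braided]

/-- the middle cases from almost diagonal hypersurfaces -/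
lemma middle_all (hT : T.Facts) (S : Set (ℕ × ℕ)) (hS : EvenCofinal S) (ω : ℕ → ℕ)
    (hω : Filter.Tendsto ω Filter.atTop Filter.atTop)
    (h : ∀ X W : T.Hyp, T.Smooth X → Relation.ReflTransGen T.Susp X W →
      (T.dim W, T.deg W) ∈ S → T.dim X ≤ ω (T.dim W) → T.MiddleClasses W) (X : T.Hyp)
    (hX : T.Smooth X) : T.MiddleClasses X := by
  intro i hi
  obtain ⟨N₀, hN₀⟩ := Filter.eventually_atTop.1 (hω.eventually_ge_atTop (T.dim X))
  have hpos := hT.deg_pos X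
  obtain ⟨⟨n, d⟩, hp, heven, hn, hdvd, hd⟩ := hS (max N₀ (T.dim X)) (2 * T.deg X) (by omega)
  simp only at heven hn hdvd hd
  obtain ⟨e, he⟩ := hdvd
  have he0 : 0 < 2 * e := by
    rcases Nat.eq_zero_or_pos e with h0 | h0
    · rw [h0] at he; omega
    · omega
  obtain ⟨X', a1, a2, a3, ⟨R⟩⟩ := hT.cover X (2 * e) hX he0
  have hd2 : T.deg X' = d := by rw [a2, he]; ring
  have hd3 : 2 ≤ T.deg X' := by
    rw [a2]
    calc 2 ≤ 1 * (2 * e) := by omega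
      _ ≤ _ := Nat.mul_le_mul_right _ hpos
  obtain ⟨k, hk⟩ : ∃ k, n = T.dim X + 2 * k := by
    obtain ⟨l, hl⟩ := heven
    have : T.dim X ≤ n := le_trans (le_max_right _ _) hn
    exact ⟨l - i, by omega⟩
  obtain ⟨W, b1, b2⟩ := exists_susps hT a1 hd3 k
  obtain ⟨c1, c2, k', c3, ⟨R'⟩⟩ := susps hT a1 b1
  obtain rfl : k' = k := by omega
  have hW : T.MiddleClasses W := by
    refine h X' W a1 b1 ?_ ?_
    · rw [show T.dim W = n by omega, show T.deg W = d by rw [c2, hd2]]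
      exact hp
    · rw [show T.dim W = n by omega, a3]
      exact hN₀ n (le_trans (le_max_left _ _) hn)
  obtain ⟨P', ⟨i'⟩⟩ := exists_inv hT k'
  exact full_right R (full_untwist i' (full_left (retIso (powAdd T.L i k').symm)
    (full_right R' (hW (i + k') (by omega)))))

/-- Hodge classes of middle degree on products -/
lemma prod_middle (hT : T.Facts) (h : ∀ X : T.Hyp, T.Smooth X → T.MiddleClasses X) {N : ℕ} {M : 𝓜}
    (hM : T.IsProd N M) (i : ℕ) (hi : 2 * i = N) : T.Full (pow T.L i) M := by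
  obtain ⟨D, -, H⟩ := prod_retract hT hM
  obtain ⟨W, s, h1, -, h3, ⟨R⟩⟩ := H 1 one_pos
  obtain ⟨P', ⟨i'⟩⟩ := exists_inv hT s
  exact full_untwist i' (full_left (retIso (powAdd T.L i s).symm)
    (full_right R (h W h1 (i + s) (by omega))))

lemma pure_pow (hT : T.Facts) (k : ℕ) : T.Pure (2 * k) (T.H.obj (pow T.L k)) := by
  induction k with
  | zero => exact hT.pure_iso ⟨Functor.Monoidal.εIso T.H⟩ hT.pure_unit
  | succ k ih => exact hT.pure_iso ⟨Functor.Monoidal.μIso T.H _ _⟩ (hT.pure_tensor ih hT.pure_L)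

lemma pure_prod (hT : T.Facts) {N : ℕ} {M : 𝓜} (hM : T.IsProd N M) : T.Pure N (T.H.obj M) := by
  induction hM with
  | one X hX => exact hT.pure_prim X hX
  | tensor _ _ ih₁ ih₂ =>
    exact hT.pure_iso ⟨Functor.Monoidal.μIso T.H _ _⟩ (hT.pure_tensor ih₁ ih₂)

lemma pure_twist (hT : T.Facts) {N : ℕ} {M : 𝓜} (hM : T.IsProd N M) (k : ℕ) :
    T.Pure (N + 2 * k) (T.H.obj (M ⊗ pow T.L k)) :=
  hT.pure_iso ⟨Functor.Monoidal.μIso T.H _ _⟩ (hT.pure_tensor (pure_prod hT hM) (pure_pow hT k))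

variable [Preadditive 𝓜] [T.H.Additive]

/-- morphisms between twisted products -/
lemma full_prod (hT : T.Facts) (h : ∀ X : T.Hyp, T.Smooth X → T.MiddleClasses X) {a b : ℕ}
    {M N : 𝓜} (hM : T.IsProd a M) (hN : T.IsProd b N) (k l : ℕ) :
    T.Full (M ⊗ pow T.L k) (N ⊗ pow T.L l) := by
  by_cases hkl : a + 2 * k = b + 2 * l
  · obtain ⟨s₀, H₁⟩ := retract_large hT hM
    obtain ⟨t₀, H₂⟩ := retract_large hT hN
    obtain ⟨W, a1, a2, ⟨R⟩⟩ := H₁ (k + (s₀ + t₀)) (by omega)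
    obtain ⟨V, b1, b2, ⟨Q⟩⟩ := H₂ (l + (s₀ + t₀)) (by omega)
    obtain ⟨P', ⟨i'⟩⟩ := exists_inv hT (s₀ + t₀)
    obtain ⟨c, e, ht⟩ := hT.poincare W a1
    obtain ⟨P₂, ⟨i₂⟩⟩ := exists_inv hT (T.dim W)
    have key : T.Full (T.prim W) (T.prim V) :=
      full_dual i₂ c e ht (prod_middle hT h (.tensor (.one W a1) (.one V b1)) _ (by omega))
    exact full_untwist i' (full_left (retIso (twistAdd T M _ _))
      (full_right (retIso (twistAdd T N _ _)) (full_left R (full_right Q key))))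
  · intro φ
    refine ⟨0, ?_⟩
    rw [hT.pure_hom (pure_twist hT hM k) (pure_twist hT hN l) hkl φ, Functor.map_zero]

omit [BraidedCategory 𝓜] [MonoidalCategory 𝓜] [MonoidalCategory 𝓗] [BraidedCategory 𝓗] [T.H.Braided] in
lemma full_split_left {M N A A' : 𝓜} (i₁ : M ⟶ A) (r₁ : A ⟶ M) (i₂ : M ⟶ A') (r₂ : A' ⟶ M)
    (e : i₁ ≫ r₁ + i₂ ≫ r₂ = 𝟙 M) (h : T.Full A N) (h' : T.Full A' N) : T.Full M N := by
  intro φ
  obtain ⟨f, hf⟩ := h (T.H.map r₁ ≫ φ)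
  obtain ⟨f', hf'⟩ := h' (T.H.map r₂ ≫ φ)
  refine ⟨i₁ ≫ f + i₂ ≫ f', ?_⟩
  rw [Functor.map_add, Functor.map_comp, Functor.map_comp, hf, hf', ← Category.assoc,
    ← Category.assoc, ← Preadditive.add_comp, ← Functor.map_comp, ← Functor.map_comp,
    ← Functor.map_add, e, CategoryTheory.Functor.map_id, Category.id_comp]

omit [BraidedCategory 𝓜] [MonoidalCategory 𝓜] [MonoidalCategory 𝓗] [BraidedCategory 𝓗] [T.H.Braided] in
lemma full_split_right {M N A A' : 𝓜} (i₁ : N ⟶ A) (r₁ : A ⟶ N) (i₂ : N ⟶ A') (r₂ : A' ⟶ N)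
    (e : i₁ ≫ r₁ + i₂ ≫ r₂ = 𝟙 N) (h : T.Full M A) (h' : T.Full M A') : T.Full M N := by
  intro φ
  obtain ⟨f, hf⟩ := h (φ ≫ T.H.map i₁)
  obtain ⟨f', hf'⟩ := h' (φ ≫ T.H.map i₂)
  refine ⟨f ≫ r₁ + f' ≫ r₂, ?_⟩
  rw [Functor.map_add, Functor.map_comp, Functor.map_comp, hf, hf', Category.assoc,
    Category.assoc, ← Preadditive.comp_add, ← Functor.map_comp, ← Functor.map_comp,
    ← Functor.map_add, e, CategoryTheory.Functor.map_id, Category.comp_id]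

/-- direct summands of direct sums of twisted products -/
inductive Dir (T : RealData.{v, u, w, v', u'} 𝓜 𝓗) : 𝓜 → Prop
  | base {a : ℕ} {M : 𝓜} (hM : T.IsProd a M) (k : ℕ) : Dir T (M ⊗ pow T.L k)
  | split {M A A' : 𝓜} (i₁ : M ⟶ A) (r₁ : A ⟶ M) (i₂ : M ⟶ A') (r₂ : A' ⟶ M)
      (h : i₁ ≫ r₁ + i₂ ≫ r₂ = 𝟙 M) (hA : Dir T A) (hA' : Dir T A') : Dir T M

lemma full_dir (hT : T.Facts) (h : ∀ X : T.Hyp, T.Smooth X → T.MiddleClasses X) {M N : 𝓜}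
    (hM : Dir T M) (hN : Dir T N) : T.Full M N := by
  induction hM with
  | base hM k =>
    induction hN with
    | base hN l => exact full_prod hT h hM hN k l
    | split i₁ r₁ i₂ r₂ e _ _ ih ih' => exact full_split_right i₁ r₁ i₂ r₂ e ih ih'
  | split i₁ r₁ i₂ r₂ e _ _ ih ih' => exact full_split_left i₁ r₁ i₂ r₂ e ih ih'

section

omit [BraidedCategory 𝓜] [BraidedCategory 𝓗] [T.H.Braided] [MonoidalCategory 𝓗] [Preadditive 𝓗]
  [T.H.Additive]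

lemma Dir.ret {M N : 𝓜} (R : Retract M N) (h : Dir T N) : Dir T M :=
  .split R.i R.r 0 (0 : N ⟶ M) (by rw [R.retract, Limits.comp_zero, add_zero]) h h

variable [MonoidalPreadditive 𝓜]

lemma Dir.twist {M : 𝓜} (h : Dir T M) (c : ℕ) : Dir T (M ⊗ pow T.L c) := by
  induction h with
  | base hM k => exact Dir.ret (retIso (twistAdd T _ k c)) (.base hM _)
  | split i₁ r₁ i₂ r₂ e _ _ ih ih' =>
    refine .split (i₁ ▷ _) (r₁ ▷ _) (i₂ ▷ _) (r₂ ▷ _) ?_ ih ih'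
    rw [← comp_whiskerRight, ← comp_whiskerRight, ← MonoidalPreadditive.add_whiskerRight, e,
      id_whiskerRight]

lemma Dir.tensor [BraidedCategory 𝓜] {M N : 𝓜} (hM : Dir T M) (hN : Dir T N) :
    Dir T (M ⊗ N) := by
  induction hM with
  | @base a M hM k =>
    induction hN with
    | @base b N hN l =>
      exact Dir.ret (retIso (shuffle M (pow T.L k) N (pow T.L l) ≪≫
        (tensorLeft (M ⊗ N)).mapIso (powAdd T.L k l).symm)) (.base (.tensor hM hN) _)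
    | split i₁ r₁ i₂ r₂ e _ _ ih ih' =>
      refine .split (_ ◁ i₁) (_ ◁ r₁) (_ ◁ i₂) (_ ◁ r₂) ?_ ih ih'
      rw [← MonoidalCategory.whiskerLeft_comp, ← MonoidalCategory.whiskerLeft_comp,
        ← MonoidalPreadditive.whiskerLeft_add, e, MonoidalCategory.whiskerLeft_id]
  | split i₁ r₁ i₂ r₂ e _ _ ih ih' =>
    refine .split (i₁ ▷ _) (r₁ ▷ _) (i₂ ▷ _) (r₂ ▷ _) ?_ ih ih'
    rw [← comp_whiskerRight, ← comp_whiskerRight, ← MonoidalPreadditive.add_whiskerRight, e,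
      id_whiskerRight]

end

variable [MonoidalPreadditive 𝓜]

omit [BraidedCategory 𝓗] [T.H.Braided] [T.H.Additive] in
/-- after a twist, the objects of the tannakian subcategory are direct summands of direct sums of
twisted products -/
lemma gen_dir (hT : T.Facts) {M : 𝓜} (h : T.Gen M) : ∃ c, Dir T (M ⊗ pow T.L c) := by
  induction h with
  | hyp X hX => exact ⟨0, .base (.one X hX) 0⟩
  | unit =>
    obtain ⟨Y, hY, -, ⟨R⟩⟩ := hT.points
    exact ⟨0, Dir.ret (retRight R _) (.base (.one Y hY) 0)⟩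
  | lef =>
    obtain ⟨Y, hY, -, ⟨R⟩⟩ := hT.points
    have e : T.L ⊗ pow T.L 0 ≅ 𝟙_ 𝓜 ⊗ pow T.L 1 :=
      ρ_ T.L ≪≫ (λ_ T.L).symm ≪≫ (λ_ (𝟙_ 𝓜 ⊗ T.L)).symm
    exact ⟨0, Dir.ret ((retIso e).trans (retRight R _)) (.base (.one Y hY) 1)⟩
  | @tensor M N _ _ ih ih' =>
    obtain ⟨c, h⟩ := ih
    obtain ⟨c', h'⟩ := ih'
    refine ⟨c + c', Dir.ret (retIso ?_) (Dir.tensor h h')⟩
    exact (tensorLeft (M ⊗ N)).mapIso (powAdd T.L c c') ≪≫ (shuffle M _ N _).symm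
  | @split M A A' i₁ r₁ i₂ r₂ e _ _ ih ih' =>
    obtain ⟨c, h⟩ := ih
    obtain ⟨c', h'⟩ := ih'
    have h1 : Dir T (A ⊗ pow T.L (c + c')) := Dir.ret (retIso (twistAdd T A c c').symm) (h.twist c')
    have h2 : Dir T (A' ⊗ pow T.L (c + c')) := by
      rw [add_comm]
      exact Dir.ret (retIso (twistAdd T A' c' c).symm) (h'.twist c)
    refine ⟨c + c', .split (i₁ ▷ _) (r₁ ▷ _) (i₂ ▷ _) (r₂ ▷ _) ?_ h1 h2⟩
    rw [← comp_whiskerRight, ← comp_whiskerRight, ← MonoidalPreadditive.add_whiskerRight, e,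
      id_whiskerRight]
  | @untwist M _ ih =>
    obtain ⟨c, h⟩ := ih
    refine ⟨c + 1, Dir.ret (retIso ?_) h⟩
    exact (tensorLeft M).mapIso (β_ (pow T.L c) T.L) ≪≫ (α_ _ _ _).symm

/-- full faithfulness on the tannakian subcategory -/
lemma full_gen (hT : T.Facts) (h : ∀ X : T.Hyp, T.Smooth X → T.MiddleClasses X) {M N : 𝓜}
    (hM : T.Gen M) (hN : T.Gen N) : T.Full M N := by
  obtain ⟨c, h1⟩ := gen_dir hT hM
  obtain ⟨c', h2⟩ := gen_dir hT hN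
  obtain ⟨P', ⟨i'⟩⟩ := exists_inv hT (c + c')
  refine full_untwist i' (full_dir hT h (Dir.ret (retIso (twistAdd T M c c').symm) (h1.twist c')) ?_)
  rw [add_comm]
  exact Dir.ret (retIso (twistAdd T N c' c).symm) (h2.twist c)

omit [MonoidalCategory 𝓗] [BraidedCategory 𝓜] [Preadditive 𝓗] [BraidedCategory 𝓗] [T.H.Braided]
  [T.H.Additive] [MonoidalPreadditive 𝓜] in
lemma gen_pow (i : ℕ) : T.Gen (pow T.L i) := by
  induction i with
  | zero => exact .unit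
  | succ i ih => exact .tensor ih .lef

omit [MonoidalCategory 𝓗] [BraidedCategory 𝓜] [Preadditive 𝓗] [BraidedCategory 𝓗] [T.H.Braided]
  [T.H.Additive] [MonoidalPreadditive 𝓜] in
lemma gen_prod {N : ℕ} {M : 𝓜} (h : T.IsProd N M) : T.Gen M := by
  induction h with
  | one X hX => exact .hyp X hX
  | tensor _ _ ih₁ ih₂ => exact .tensor ih₁ ih₂

/-- main theorem -/
theorem final (hT : T.Facts) (S : Set (ℕ × ℕ)) (hS : EvenCofinal S) (ω : ℕ → ℕ)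
    (hω : Filter.Tendsto ω Filter.atTop Filter.atTop) :
    [∀ X W : T.Hyp, T.Smooth X → Relation.ReflTransGen T.Susp X W →
        (T.dim W, T.deg W) ∈ S → T.dim X ≤ ω (T.dim W) → T.MiddleClasses W,
      ∀ (N : ℕ) (M : 𝓜), T.IsProd N M → ∀ i, T.Full (pow T.L i) M,
      ∀ M N : 𝓜, T.Gen M → T.Gen N → T.Full M N].TFAE := by
  tfae_have 1 → 3 := fun h M N hM hN => full_gen hT (middle_all hT S hS ω hω h) hM hN
  tfae_have 3 → 2 := fun h N M hM i => h _ _ (gen_pow i) (gen_prod hM)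
  tfae_have 2 → 1 := fun h X W hX hW _ _ i _ => h _ _ (.one W (susps hT hX hW).1) i
  tfae_finish

end RealData

end Pool.Agent.Q296.FF
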