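import Pool.Agent.Q296.FF.Defs

/-!
# Hodge realisation of motives of hypersurfaces
-/

open CategoryTheory MonoidalCategory Functor.LaxMonoidal Functor.OplaxMonoidal

universe v u w v' u'

namespace Pool.Agent.Q296.FF

open Pool.Agent.Q28.HJ

section Inv

variable {C : Type u} [Category.{v} C] [MonoidalCategory C]

/-- tensoring with `P` and then with `P'` -/
def shift (P P' : C) (e : P ⊗ P' ≅ 𝟙_ C) : 𝟭 C ≅ tensorRight P ⋙ tensorRight P' :=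
  NatIso.ofComponents (fun X => (ρ_ X).symm ≪≫ whiskerLeftIso X e.symm ≪≫ (α_ X P P').symm)
    (by
      intro X Y f
      change f ≫ (ρ_ Y).inv ≫ Y ◁ e.inv ≫ (α_ Y P P').inv =
        ((ρ_ X).inv ≫ X ◁ e.inv ≫ (α_ X P P').inv) ≫ (f ▷ P) ▷ P'
      rw [rightUnitor_inv_naturality_assoc, ← whisker_exchange_assoc, whiskerRight_tensor]
      simp)

variable [BraidedCategory C]

lemma inv_isEquivalence {P P' : C} (e : P ⊗ P' ≅ 𝟙_ C) : (tensorRight P).IsEquivalence :=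
  (CategoryTheory.Equivalence.mk (tensorRight P) (tensorRight P') (shift P P' e)
    (shift P' P (β_ P' P ≪≫ e)).symm).isEquivalence_functor

lemma inv_full {P P' : C} (e : P ⊗ P' ≅ 𝟙_ C) {M N : C} (g : M ⊗ P ⟶ N ⊗ P) :
    ∃ f : M ⟶ N, f ▷ P = g := by
  have := inv_isEquivalence e
  exact (tensorRight P).map_surjective g

lemma inv_faithful {P P' : C} (e : P ⊗ P' ≅ 𝟙_ C) {M N : C} (f g : M ⟶ N) (h : f ▷ P = g ▷ P) :
    f = g := by
  have := inv_isEquivalence e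
  exact (tensorRight P).map_injective h

omit [BraidedCategory C] in
/-- the powers of an invertible object are invertible -/
lemma inv_pow {L L' : C} (e : L ⊗ L' ≅ 𝟙_ C) (k : ℕ) : ∃ P' : C, Nonempty (pow L k ⊗ P' ≅ 𝟙_ C) := by
  induction k with
  | zero => exact ⟨𝟙_ C, ⟨λ_ _⟩⟩
  | succ k ih =>
    obtain ⟨P', ⟨i⟩⟩ := ih
    refine ⟨L' ⊗ P', ⟨?_⟩⟩
    exact (α_ (pow L k) L (L' ⊗ P')) ≪≫ whiskerLeftIso _ ((α_ L L' P').symm ≪≫
      whiskerRightIso e P' ≪≫ λ_ P') ≪≫ i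

/-- the triangle identity and the correspondence `Hom(M, N) = Hom(P, M ⊗ N)` -/
lemma zigzag {M P N : C} (c : P ⟶ M ⊗ M) (e : M ⊗ M ⟶ P)
    (h : (c ▷ M) ≫ (α_ _ _ _).hom ≫ (M ◁ e) = (β_ P M).hom) (f : M ⟶ N) :
    ((c ≫ (β_ M M).inv ≫ (M ◁ f)) ▷ M) ≫ ((β_ M N).hom ▷ M) ≫ (α_ N M M).hom ≫ (N ◁ e) =
      (β_ P M).hom ≫ (f ▷ P) := by
  have h1 : c ≫ (β_ M M).inv ≫ (M ◁ f) ≫ (β_ M N).hom = c ≫ (f ▷ M) := by
    rw [BraidedCategory.braiding_naturality_right, Iso.inv_hom_id_assoc]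
  rw [← comp_whiskerRight_assoc, Category.assoc, Category.assoc, h1, comp_whiskerRight_assoc,
    associator_naturality_left_assoc, ← whisker_exchange, ← h]
  simp only [Category.assoc]

end Inv

namespace RealData

variable {𝓜 : Type u} [Category.{v} 𝓜] {𝓗 : Type u'} [Category.{v'} 𝓗]
  {T : RealData.{v, u, w, v', u'} 𝓜 𝓗}

lemma full_right {M N N' : 𝓜} (R : Retract N N') (h : T.Full M N') : T.Full M N := by
  intro φ
  obtain ⟨f, hf⟩ := h (φ ≫ T.H.map R.i)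
  refine ⟨f ≫ R.r, ?_⟩
  rw [Functor.map_comp, hf, Category.assoc, ← Functor.map_comp, R.retract, CategoryTheory.Functor.map_id,
    Category.comp_id]

lemma full_left {M M' N : 𝓜} (R : Retract M M') (h : T.Full M' N) : T.Full M N := by
  intro φ
  obtain ⟨f, hf⟩ := h (T.H.map R.r ≫ φ)
  refine ⟨R.i ≫ f, ?_⟩
  rw [Functor.map_comp, hf, ← Category.assoc, ← Functor.map_comp, R.retract, CategoryTheory.Functor.map_id,
    Category.id_comp]

variable [MonoidalCategory 𝓜] [MonoidalCategory 𝓗] [BraidedCategory 𝓜] [BraidedCategory 𝓗]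
  [T.H.Braided]

/-- the image of an invertible object -/
def imageInv {P P' : 𝓜} (e : P ⊗ P' ≅ 𝟙_ 𝓜) : T.H.obj P ⊗ T.H.obj P' ≅ 𝟙_ 𝓗 :=
  Functor.Monoidal.μIso T.H P P' ≪≫ T.H.mapIso e ≪≫ (Functor.Monoidal.εIso T.H).symm

lemma untwist_one {P P' : 𝓜} (i : P ⊗ P' ≅ 𝟙_ 𝓜) {M N : 𝓜} (φ : T.H.obj M ⟶ T.H.obj N)
    (g : M ⊗ P ⟶ N ⊗ P) (hg : T.H.map g = δ T.H M P ≫ φ ▷ T.H.obj P ≫ μ T.H N P) :
    ∃ f : M ⟶ N, T.H.map f = φ := by
  obtain ⟨f, rfl⟩ := inv_full i g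
  refine ⟨f, inv_faithful (imageInv (T := T) i) _ _ ?_⟩
  rw [Functor.Monoidal.map_whiskerRight] at hg
  have h1 := (cancel_epi _).1 hg
  exact (cancel_mono _).1 h1

lemma full_untwist {P P' : 𝓜} (i : P ⊗ P' ≅ 𝟙_ 𝓜) {M N : 𝓜} (h : T.Full (M ⊗ P) (N ⊗ P)) :
    T.Full M N := by
  intro φ
  obtain ⟨g, hg⟩ := h (δ T.H M P ≫ φ ▷ T.H.obj P ≫ μ T.H N P)
  exact untwist_one i φ g hg

lemma full_dual {M P P' N : 𝓜} (i : P ⊗ P' ≅ 𝟙_ 𝓜) (c : P ⟶ M ⊗ M) (e : M ⊗ M ⟶ P)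
    (h : (c ▷ M) ≫ (α_ _ _ _).hom ≫ (M ◁ e) = (β_ P M).hom) (hf : T.Full P (M ⊗ N)) :
    T.Full M N := by
  intro φ
  obtain ⟨g, hg⟩ := hf (T.H.map c ≫ δ T.H M M ≫ (β_ (T.H.obj M) (T.H.obj M)).inv ≫
    (T.H.obj M ◁ φ) ≫ μ T.H M N)
  have h' : ((T.H.map c ≫ δ T.H M M) ▷ T.H.obj M) ≫ (α_ _ _ _).hom ≫
      (T.H.obj M ◁ (μ T.H M M ≫ T.H.map e)) = (β_ (T.H.obj P) (T.H.obj M)).hom := by
    have h2 := congrArg (fun t => μ T.H P M ≫ T.H.map t ≫ δ T.H M P) h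
    simp only [Functor.map_comp, Functor.Monoidal.map_whiskerRight,
      Functor.Monoidal.map_whiskerLeft, Functor.Monoidal.map_associator, Functor.map_braiding,
      Category.assoc, Functor.Monoidal.μ_δ, Functor.Monoidal.μ_δ_assoc, Category.comp_id] at h2
    rw [← h2]
    simp
  have h3 := zigzag (T.H.map c ≫ δ T.H M M) (μ T.H M M ≫ T.H.map e) h' φ
  refine untwist_one i φ ((β_ P M).inv ≫ (g ▷ M) ≫ ((β_ M N).hom ▷ M) ≫ (α_ N M M).hom ≫ (N ◁ e))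
    ?_
  have h4 : T.H.map ((g ▷ M) ≫ ((β_ M N).hom ▷ M) ≫ (α_ N M M).hom ≫ (N ◁ e)) =
      δ T.H P M ≫ ((β_ (T.H.obj P) (T.H.obj M)).hom ≫ φ ▷ T.H.obj P) ≫ μ T.H N P := by
    rw [← h3]
    simp only [Functor.map_comp, Functor.Monoidal.map_whiskerRight,
      Functor.Monoidal.map_whiskerLeft, Functor.Monoidal.map_associator, Functor.map_braiding,
      Category.assoc, Functor.Monoidal.μ_δ_assoc, hg, comp_whiskerRight,
      Functor.Monoidal.whiskerRight_μ_δ_assoc, MonoidalCategory.whiskerLeft_comp]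
  rw [Functor.map_comp, h4, ← cancel_epi (T.H.map (β_ P M).hom), ← Functor.map_comp_assoc,
    Iso.hom_inv_id, CategoryTheory.Functor.map_id, Category.id_comp, Functor.map_braiding]
  simp only [Category.assoc, Functor.Monoidal.μ_δ_assoc]

end RealData

end Pool.Agent.Q296.FF
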